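import Pool.Agent.H963.HT.Pr

/-!
# MP_788ef7_an: no Anosov diffeomorphism is homotopic to a product of pseudo-Anosov homeomorphisms
-/

set_option autoImplicit false

open scoped Manifold ContDiff Topology
open Set Filter

namespace Pool.Agent.Results.MP_788ef7_an.PseudoAnosovProducts

open Pool.Agent.H721R2 Pool.Agent.H789R2.AN Pool.Agent.H223.CE
open Pool.Agent.H963.HT (PALike Idx)

universe u v w x y

/-- **Anosov diffeomorphisms and products of pseudo-Anosov homeomorphisms.**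
Let `S₁`, `S₂` be compact Hausdorff spaces (for example closed surfaces other than the sphere and the
projective plane) whose universal coverings `P₁ : X₁ → S₁`, `P₂ : X₂ → S₂` (deck groups `Γ₁`, `Γ₂`, acting by
isometries of the proper metric spaces `X₁`, `X₂`) are homeomorphic to the vector space `V` (`e₁`, `e₂`;
`V = ℝ²` for surfaces).  Let `g₁`, `g₂` be homeomorphisms of `S₁`, `S₂` with lifts `G₁`, `G₂` satisfying
`PALike`: `G` is coarsely hyperbolic (for some `N ≥ 1` and `R`, `G^N` or `G^(-N)` at least doubles the distances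
`≥ R`), every lift `γ⁻¹ Gⁿ` (`n ≥ 1`, `γ ∈ Γ`) of every iterate has at most one fixed point, and the
fixed point indices of these fixed points are bounded.  Lifts of pseudo-Anosov homeomorphisms,
with the singular flat metric, have these properties (geodesics go to geodesics, with the
horizontal and the vertical lengths multiplied by `λ` and `1/λ`; the index at a fixed point with `k`
fixed prongs is `1 - k`), and so do hyperbolic automorphisms of the torus.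

Let `M` be a closed connected smooth manifold (modelled on `V × V`) with a homeomorphism
`r : M → S₁ × S₂`.

(1) If `f` is a `C¹` Anosov diffeomorphism of `M`, transitive or not, and `r ∘ f ∘ r⁻¹` is homotopic
to `g₁ × g₂`, then `f` is topologically transitive, and for all `n ≥ 1`, if `p₁` and `p₂` are fixed points of lifts
`γ₁⁻¹ G₁ⁿ`, `γ₂⁻¹ G₂ⁿ`, of indices `i₁`, `i₂`, then `|i₁ i₂| ≤ 1`.

(2) So if there are such fixed points with `|i₁| ≥ 2` and `i₂ ≠ 0` (for example a singularity with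
`k ≥ 3` prongs of `g₁`, fixed with its prongs by an iterate), then no Anosov diffeomorphism of `M` is
homotopic to `g₁ × g₂`. -/
theorem result (V : Type u) [NormedAddCommGroup V] [NormedSpace ℝ V] [FiniteDimensional ℝ V]
    (M : Type y) [TopologicalSpace M] [T2Space M] [CompactSpace M] [ConnectedSpace M]
    [ChartedSpace (V × V) M] [IsManifold 𝓘(ℝ, V × V) ∞ M]
    (S₁ : Type v) [TopologicalSpace S₁] [T2Space S₁] [CompactSpace S₁]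
    (S₂ : Type v) [TopologicalSpace S₂] [T2Space S₂] [CompactSpace S₂] (r : M ≃ₜ S₁ × S₂)
    (X₁ : Type w) [MetricSpace X₁] [ProperSpace X₁] (X₂ : Type w) [MetricSpace X₂] [ProperSpace X₂]
    (Γ₁ : Type x) [Group Γ₁] [MulAction Γ₁ X₁] [IsIsometricSMul Γ₁ X₁] [FaithfulSMul Γ₁ X₁]
    (Γ₂ : Type x) [Group Γ₂] [MulAction Γ₂ X₂] [IsIsometricSMul Γ₂ X₂] [FaithfulSMul Γ₂ X₂]
    (P₁ : X₁ → S₁) (hP₁ : IsCoveringMap P₁) (hs₁ : Function.Surjective P₁)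
    (hΓ₁ : ∀ x y : X₁, P₁ x = P₁ y ↔ ∃ γ : Γ₁, γ • x = y)
    (P₂ : X₂ → S₂) (hP₂ : IsCoveringMap P₂) (hs₂ : Function.Surjective P₂)
    (hΓ₂ : ∀ x y : X₂, P₂ x = P₂ y ↔ ∃ γ : Γ₂, γ • x = y)
    (e₁ : X₁ ≃ₜ V) (e₂ : X₂ ≃ₜ V) (g₁ : S₁ ≃ₜ S₁) (g₂ : S₂ ≃ₜ S₂)
    (G₁ : X₁ ≃ₜ X₁) (hG₁ : ∀ x, P₁ (G₁ x) = g₁ (P₁ x))
    (G₂ : X₂ ≃ₜ X₂) (hG₂ : ∀ x, P₂ (G₂ x) = g₂ (P₂ x))
    (h₁ : PALike Γ₁ e₁ G₁) (h₂ : PALike Γ₂ e₂ G₂) :
    -- (1)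
    (∀ f : Diffeomorph 𝓘(ℝ, V × V) 𝓘(ℝ, V × V) M M 1,
      (∃ Es Eu : ∀ x : M, Submodule ℝ (TangentSpace 𝓘(ℝ, V × V) x), IsAnosov f Es Eu) →
      ContinuousMap.Homotopic
        (⟨g₁.prodCongr g₂, (g₁.prodCongr g₂).continuous⟩ : C(S₁ × S₂, S₁ × S₂))
        ⟨fun m => r (f (r.symm m)), r.continuous.comp (f.continuous.comp r.symm.continuous)⟩ →
      TopTransitive f ∧ ∀ n : ℕ, 1 ≤ n → ∀ (γ₁ : Γ₁) (γ₂ : Γ₂) (p₁ : X₁) (p₂ : X₂) (i₁ i₂ : ℤ),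
        G₁^[n] p₁ = γ₁ • p₁ → G₂^[n] p₂ = γ₂ • p₂ →
        Idx (fun y => y - e₁ (γ₁⁻¹ • G₁^[n] (e₁.symm y))) (e₁ p₁) i₁ →
        Idx (fun y => y - e₂ (γ₂⁻¹ • G₂^[n] (e₂.symm y))) (e₂ p₂) i₂ → |i₁ * i₂| ≤ 1) ∧
    -- (2)
    ((∃ n : ℕ, 1 ≤ n ∧ ∃ (γ₁ : Γ₁) (γ₂ : Γ₂) (p₁ : X₁) (p₂ : X₂) (i₁ i₂ : ℤ),
        G₁^[n] p₁ = γ₁ • p₁ ∧ G₂^[n] p₂ = γ₂ • p₂ ∧
        Idx (fun y => y - e₁ (γ₁⁻¹ • G₁^[n] (e₁.symm y))) (e₁ p₁) i₁ ∧
        Idx (fun y => y - e₂ (γ₂⁻¹ • G₂^[n] (e₂.symm y))) (e₂ p₂) i₂ ∧ 2 ≤ |i₁| ∧ i₂ ≠ 0) →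
      ¬ ∃ f : Diffeomorph 𝓘(ℝ, V × V) 𝓘(ℝ, V × V) M M 1,
        (∃ Es Eu : ∀ x : M, Submodule ℝ (TangentSpace 𝓘(ℝ, V × V) x), IsAnosov f Es Eu) ∧
        ContinuousMap.Homotopic
          (⟨g₁.prodCongr g₂, (g₁.prodCongr g₂).continuous⟩ : C(S₁ × S₂, S₁ × S₂))
          ⟨fun m => r (f (r.symm m)), r.continuous.comp (f.continuous.comp r.symm.continuous)⟩) := by
  have key := fun (f : Diffeomorph 𝓘(ℝ, V × V) 𝓘(ℝ, V × V) M M 1) Es Eu hf hfg =>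
    Pool.Agent.H963.HT.pr_main f Es Eu hf g₁ g₂ r hfg P₁ hP₁ hs₁ hΓ₁ P₂ hP₂ hs₂ hΓ₂ G₁ hG₁ G₂ hG₂
      e₁ e₂ h₁ h₂
  refine ⟨fun f ⟨Es, Eu, hf⟩ hfg => key f Es Eu hf hfg, ?_⟩
  rintro ⟨n, hn, γ₁, γ₂, p₁, p₂, i₁, i₂, q₁, q₂, k₁, k₂, l₁, l₂⟩ ⟨f, ⟨Es, Eu, hf⟩, hfg⟩
  have h := (key f Es Eu hf hfg).2 n hn γ₁ γ₂ p₁ p₂ i₁ i₂ q₁ q₂ k₁ k₂
  rw [abs_mul] at h
  have h2 : 1 ≤ |i₂| := Int.one_le_abs l₂
  nlinarith

end Pool.Agent.Results.MP_788ef7_an.PseudoAnosovProducts
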